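import Pool.Agent.Helper88.KS.Basic

/-!
# Project KS: `Cand1` (conditional normalised number of candidates)
-/

set_option autoImplicit false
open scoped Classical

namespace Pool.Agent.Helper88.KS

open Pool.Agent.Helper16.KS

/-- inequalities between the parameters -/
theorem params (S : Sys) : 0 < S.c ∧ S.c ≤ 0.006 ∧ 0 < S.del ∧ 0 < S.eta ∧
    0 ≤ S.tau ∧ S.tau ≤ S.s ∧ 0 < S.s ∧ S.s ≤ S.c / 10 ^ 5 ∧ S.d ≤ S.c / 10 ^ 5 ∧
    S.hh ≤ 1/2 - S.del ∧ 1/2 - S.del - S.s ≤ S.hh ∧ 0 < S.hh ∧ S.del ≤ 0.06 := by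
  have h1 := S.d_pos
  have h2 := S.d_le
  have h3 := S.c_le
  have h4 := S.eta_le
  have h5 := S.del_le
  have hc : 0 < S.c := by
    have : 0 < S.c / 10 ^ 5 := lt_of_lt_of_le h1 h2
    by_contra hcon
    have h6 : S.c / 10 ^ 5 ≤ 0 := by
      apply div_nonpos_of_nonpos_of_nonneg (not_lt.1 hcon) (by norm_num)
    linarith
  have heta : 0 < S.eta := by linarith
  have hdel : 0 < S.del := by linarith
  have hc6 : S.c ≤ 0.006 := by norm_num at h5 ⊢; linarith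
  have heta6 : S.eta ≤ 0.06 := by norm_num at h5 ⊢; linarith
  have hs : S.s = S.d / 2 := rfl
  have htau : S.tau = S.c * S.eta * S.d / 10 ^ 4 := rfl
  have htau0 : 0 ≤ S.tau := by rw [htau]; positivity
  have htaus : S.tau ≤ S.s := by
    rw [htau, hs]
    have h7 : S.c * S.eta ≤ 1 := by
      have : S.c * S.eta ≤ 0.006 * 0.06 := mul_le_mul hc6 heta6 heta.le (by norm_num)
      norm_num at this ⊢
      linarith
    have h8 : S.c * S.eta * S.d ≤ 1 * S.d := mul_le_mul_of_nonneg_right h7 h1.le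
    rw [div_le_div_iff₀ (by norm_num) (by norm_num)]
    nlinarith
  have hs0 : 0 < S.s := by rw [hs]; linarith
  have hsc : S.s ≤ S.c / 10 ^ 5 := by rw [hs]; linarith
  have hhh : S.hh = 1/2 - S.s - S.del + S.tau := rfl
  have hcs : S.c / 10 ^ 5 ≤ 0.001 := by
    rw [div_le_iff₀ (by norm_num)]
    norm_num at hc6 ⊢
    linarith
  refine ⟨hc, hc6, hdel, heta, htau0, htaus, hs0, hsc, h2, ?_, ?_, ?_, ?_⟩
  · rw [hhh]; linarith
  · rw [hhh]; linarith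
  · rw [hhh]; norm_num at h5 hcs ⊢; linarith
  · norm_num at h5 ⊢; linarith

/-- the number of candidates with `a ∣ m` in a window -/
theorem card_cand_le (S : Sys) {k j : ℕ} (hk : S.K ≤ k) (hj : j ∈ S.badc k) (a x h : ℕ)
    (ha : 0 < a) (T : Finset (ℕ × ℕ)) (hT : T ⊆ S.Cand k j)
    (hT2 : ∀ y ∈ T, a ∣ y.2 ∧ x ≤ y.1 * y.2 ∧ y.1 * y.2 < x + h) :
    (T.card : ℝ) ≤ (h : ℝ) / a + 1 := by
  rw [mem_badc] at hj
  have h1 : T.card ≤ ((Finset.Ico x (x + h)).filter (fun n => a ∣ n)).card := by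
    apply Finset.card_le_card_of_injOn (fun y => y.1 * y.2)
    · intro y hy
      rw [Finset.mem_coe] at hy
      rw [Finset.mem_coe, Finset.mem_filter, Finset.mem_Ico]
      obtain ⟨h2, h3, h4⟩ := hT2 y hy
      exact ⟨⟨h3, h4⟩, Dvd.dvd.mul_left h2 _⟩
    · intro y hy z hz hyz
      rw [Finset.mem_coe] at hy hz
      exact S.inj k hk j hj.1 hj.2 y (hT hy) z (hT hz) hyz
  have h2 : (T.card : ℝ) ≤ (((Finset.Ico x (x + h)).filter (fun n => a ∣ n)).card : ℝ) := by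
    exact_mod_cast h1
  exact h2.trans (card_mult_le x h a ha)

theorem term_eq (S : Sys) {m : ℕ} (hm : Squarefree m) {A : Finset ℕ} (hA : A ⊆ m.primeFactors) :
    S.pc A m.primeFactors / S.pr m = ((∏ p ∈ A, p : ℕ) : ℝ) ^ S.hh := by
  have h1 := prod_mul_prod_sdiff hm hA
  have hb0 : (0 : ℝ) < ((∏ p ∈ m.primeFactors \ A, p : ℕ) : ℝ) := by
    have : 0 < ∏ p ∈ m.primeFactors \ A, p := Finset.prod_pos fun p hp =>
      (Nat.prime_of_mem_primeFactors (Finset.mem_sdiff.1 hp).1).pos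
    exact_mod_cast this
  have ha0 : (0 : ℝ) < ((∏ p ∈ A, p : ℕ) : ℝ) := by
    have : 0 < ∏ p ∈ A, p := Finset.prod_pos fun p hp =>
      (Nat.prime_of_mem_primeFactors (hA hp)).pos
    exact_mod_cast this
  have h2 : (m : ℝ) = ((∏ p ∈ A, p : ℕ) : ℝ) * ((∏ p ∈ m.primeFactors \ A, p : ℕ) : ℝ) := by
    rw [← Nat.cast_mul, h1]
  rw [pc_eq]
  unfold Sys.pr
  rw [h2, Real.mul_rpow ha0.le hb0.le, Real.rpow_neg ha0.le, Real.rpow_neg hb0.le]
  have hx : (((∏ p ∈ m.primeFactors \ A, p : ℕ) : ℝ)) ^ S.hh ≠ 0 := (Real.rpow_pos_of_pos hb0 _).ne'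
  have hy : (((∏ p ∈ A, p : ℕ) : ℝ)) ^ S.hh ≠ 0 := (Real.rpow_pos_of_pos ha0 _).ne'
  field_simp

theorem cand1 : Cand1 := by
  intro S
  obtain ⟨hc, hc6, hdel, heta, htau0, htaus, hs0, hsc, hdc, hhh, hhh2, hhh0, hdel6⟩ := params S
  refine ⟨S.K + ⌈1000 / S.c⌉₊, ?_⟩
  intro k hk j hj A hAne
  have hkK : S.K ≤ k := le_trans (Nat.le_add_right _ _) hk
  have hkc : 1000 ≤ S.c * k := by
    have h1 : (⌈1000 / S.c⌉₊ : ℝ) ≤ k := by exact_mod_cast le_trans (Nat.le_add_left _ _) hk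
    have h2 := (Nat.le_ceil (1000 / S.c)).trans h1
    rw [div_le_iff₀ hc] at h2
    linarith
  have hk1 : (1000 : ℝ) ≤ k := by
    have hk0 : (0 : ℝ) ≤ k := Nat.cast_nonneg k
    norm_num at hc6
    nlinarith
  have hjb := mem_badc.1 hj
  have hu := S.u_ge (S.cls k j)
  set u := S.u (S.cls k j) with hu_def
  -- properties of the product `a` of `A`, given one candidate `y` with `A ⊆ primeFactors y.2`
  have key : ∀ y ∈ S.Cand k j, A ⊆ y.2.primeFactors →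
      Squarefree y.2 ∧ (0 < ∏ p ∈ A, p) ∧ (∏ p ∈ A, p) ∣ y.2 ∧
      ((∏ p ∈ A, p : ℕ) : ℝ) ^ (S.hh - 1) ≤ (2 : ℝ) ^ (-(u + S.c) * k) ∧
      ((∏ p ∈ A, p : ℕ) : ℝ) ^ S.hh ≤ (2 : ℝ) ^ ((1/2 - u - S.c) * k) ∧
      ((∏ p ∈ A, p : ℕ) : ℝ) ^ S.hh ≤ (2 : ℝ) ^ ((k : ℝ) / 3 + 1 / 2) := by
    intro y hy hAy
    obtain ⟨hyp, hq3, hsq, h1y, hcell, hprim, hm⟩ := S.cand k hkK j hjb.1 hjb.2 y hy
    have hsq2 : Squarefree y.2 := hsq.squarefree_of_dvd (Dvd.intro_left _ rfl)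
    have hapos : 0 < ∏ p ∈ A, p := Finset.prod_pos fun p hp =>
      (Nat.prime_of_mem_primeFactors (hAy hp)).pos
    have hdvd : (∏ p ∈ A, p) ∣ y.2 := ⟨_, (prod_mul_prod_sdiff hsq2 hAy).symm⟩
    have hy2 : 0 < y.2 := lt_trans zero_lt_one h1y
    have hale : (∏ p ∈ A, p) ≤ y.2 := Nat.le_of_dvd hy2 hdvd
    have haR : (0 : ℝ) < ((∏ p ∈ A, p : ℕ) : ℝ) := by exact_mod_cast hapos
    have ha1 : (1 : ℝ) ≤ ((∏ p ∈ A, p : ℕ) : ℝ) := by exact_mod_cast hapos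
    have haleR : ((∏ p ∈ A, p : ℕ) : ℝ) ≤ (y.2 : ℝ) := by exact_mod_cast hale
    refine ⟨hsq2, hapos, hdvd, ?_, ?_, ?_⟩
    · obtain ⟨p, hp⟩ := hAne
      have hpp := Nat.prime_of_mem_primeFactors (hAy hp)
      have hpd : p ∣ y.1 * y.2 := Dvd.dvd.mul_left (Nat.dvd_of_mem_primeFactors (hAy hp)) _
      have h1 := hprim p hpp hpd
      have hpa : p ≤ ∏ p ∈ A, p := Nat.le_of_dvd hapos (Finset.dvd_prod_of_mem _ hp)
      have hpaR : (p : ℝ) ≤ ((∏ p ∈ A, p : ℕ) : ℝ) := by exact_mod_cast hpa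
      have h2 : (p : ℝ) ^ (1/2 - S.del) ≤ ((∏ p ∈ A, p : ℕ) : ℝ) ^ (1 - S.hh) :=
        calc (p : ℝ) ^ (1/2 - S.del) ≤ ((∏ p ∈ A, p : ℕ) : ℝ) ^ (1/2 - S.del) :=
              Real.rpow_le_rpow (Nat.cast_nonneg _) hpaR (by norm_num at hdel6; linarith)
          _ ≤ ((∏ p ∈ A, p : ℕ) : ℝ) ^ (1 - S.hh) :=
              Real.rpow_le_rpow_of_exponent_le ha1 (by linarith)
      have h3 := h1.trans h2
      rw [show S.hh - 1 = -(1 - S.hh) by ring, show -(u + S.c) * (k : ℝ) = -((u + S.c) * k) by ring,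
        Real.rpow_neg haR.le, Real.rpow_neg (by norm_num)]
      exact inv_anti₀ (by positivity) h3
    · calc ((∏ p ∈ A, p : ℕ) : ℝ) ^ S.hh ≤ (y.2 : ℝ) ^ S.hh :=
            Real.rpow_le_rpow haR.le haleR hhh0.le
        _ ≤ (y.2 : ℝ) ^ (1/2 + S.del) :=
            Real.rpow_le_rpow_of_exponent_le (by exact_mod_cast hy2) (by linarith)
        _ ≤ _ := hm
    · have hcb := (cell_bound S.d_pos.le hjb.1 hcell).2
      have h2 : (y.1 : ℝ) * y.2 < (2 : ℝ) ^ ((k : ℝ) + 1) := by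
        have h3 : ((y.1 * y.2 : ℕ) : ℝ) < ((2 ^ (k + 1) : ℕ) : ℝ) := by exact_mod_cast hcb
        rw [Nat.cast_mul] at h3
        refine h3.trans_le (le_of_eq ?_)
        push_cast
        rw [← Real.rpow_natCast]
        push_cast
        rfl
      have h4 : (y.2 : ℝ) ≤ (2 : ℝ) ^ (2 * (k : ℝ) / 3 + 1) := by
        have h5 : (2 : ℝ) ^ ((k : ℝ) / 3) * y.2 ≤ (2 : ℝ) ^ ((k : ℝ) + 1) :=
          (mul_le_mul_of_nonneg_right hq3 (Nat.cast_nonneg _)).trans h2.le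
        have h6 : (2 : ℝ) ^ ((k : ℝ) + 1) = (2 : ℝ) ^ ((k : ℝ) / 3) * (2 : ℝ) ^ (2 * (k : ℝ) / 3 + 1) := by
          rw [← Real.rpow_add (by norm_num)]
          congr 1
          ring
        rw [h6] at h5
        exact le_of_mul_le_mul_left h5 (by positivity)
      calc ((∏ p ∈ A, p : ℕ) : ℝ) ^ S.hh ≤ (y.2 : ℝ) ^ S.hh :=
            Real.rpow_le_rpow haR.le haleR hhh0.le
        _ ≤ (y.2 : ℝ) ^ (1/2 : ℝ) :=
            Real.rpow_le_rpow_of_exponent_le (by exact_mod_cast hy2) (by linarith)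
        _ ≤ ((2 : ℝ) ^ (2 * (k : ℝ) / 3 + 1)) ^ (1/2 : ℝ) :=
            Real.rpow_le_rpow (Nat.cast_nonneg _) h4 (by norm_num)
        _ = (2 : ℝ) ^ ((k : ℝ) / 3 + 1 / 2) := by
            rw [← Real.rpow_mul (by norm_num)]
            congr 1
            ring
  -- value of the sum over a subset
  have val : ∀ T : Finset (ℕ × ℕ), T ⊆ S.Cand k j → (∀ y ∈ T, A ⊆ y.2.primeFactors) →
      ∑ y ∈ T, S.pc A y.2.primeFactors / S.pr y.2 = T.card * ((∏ p ∈ A, p : ℕ) : ℝ) ^ S.hh := by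
    intro T hT hT2
    rw [← nsmul_eq_mul, ← Finset.sum_const]
    exact Finset.sum_congr rfl fun y hy => term_eq S (key y (hT hy) (hT2 y hy)).1 (hT2 y hy)
  constructor
  · set T := (S.Cand k j).filter (fun x => A ⊆ x.2.primeFactors) with hT
    have hTsub : T ⊆ S.Cand k j := Finset.filter_subset _ _
    have hTA : ∀ y ∈ T, A ⊆ y.2.primeFactors := fun y hy => (Finset.mem_filter.1 hy).2
    rw [val T hTsub hTA]
    rcases T.eq_empty_or_nonempty with h0 | ⟨y, hy⟩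
    · rw [h0]
      simp only [Finset.card_empty, Nat.cast_zero, zero_mul]
      positivity
    · obtain ⟨_, hapos, _, hA1, hA2, _⟩ := key y (hTsub hy) (hTA y hy)
      have hcard : (T.card : ℝ) ≤ ((2 ^ ec S.d k : ℕ) : ℝ) / ((∏ p ∈ A, p : ℕ) : ℝ) + 1 := by
        refine card_cand_le S hkK hj (∏ p ∈ A, p) (2 ^ k + j * 2 ^ ec S.d k) (2 ^ ec S.d k) hapos T hTsub ?_
        intro z hz
        have hz1 := (S.cand k hkK j hjb.1 hjb.2 z (hTsub hz)).2.2.2.2.1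
        rw [cell_eq, Finset.mem_Ico] at hz1
        exact ⟨(key z (hTsub hz) (hTA z hz)).2.2.1, hz1.1, hz1.2⟩
      have haR : (0 : ℝ) < ((∏ p ∈ A, p : ℕ) : ℝ) := by exact_mod_cast hapos
      set a : ℝ := ((∏ p ∈ A, p : ℕ) : ℝ) with ha
      push_cast at hcard
      set E : ℝ := (2 : ℝ) ^ ec S.d k with hE
      have hEge := ec_real_ge S.d k
      rw [← hE] at hEge
      have hE0 : 0 < E := by rw [hE]; positivity
      have h1 : (T.card : ℝ) * a ^ S.hh ≤ E * a ^ (S.hh - 1) + a ^ S.hh := by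
        have h2 : (T.card : ℝ) * a ^ S.hh ≤ (E / a + 1) * a ^ S.hh :=
          mul_le_mul_of_nonneg_right hcard (by positivity)
        refine h2.trans (le_of_eq ?_)
        rw [Real.rpow_sub haR, Real.rpow_one]
        ring
      have h3 : (2 : ℝ) ^ ((1/2 - u - S.c) * (k : ℝ)) ≤ E * (2 : ℝ) ^ (-(u + S.c - S.d) * k + 1) := by
        calc (2 : ℝ) ^ ((1/2 - u - S.c) * (k : ℝ))
            = (2 : ℝ) ^ ((1/2 - S.d) * (k : ℝ) - 1) * (2 : ℝ) ^ (-(u + S.c - S.d) * k + 1) := by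
              rw [← Real.rpow_add (by norm_num)]
              congr 1
              ring
          _ ≤ _ := mul_le_mul_of_nonneg_right hEge (by positivity)
      have h4 : (2 : ℝ) ^ (-(u + S.c) * (k : ℝ)) ≤ (2 : ℝ) ^ (-(u + S.c / 2) * k - 1) := by
        apply Real.rpow_le_rpow_of_exponent_le (by norm_num)
        nlinarith
      have h5 : (2 : ℝ) ^ (-(u + S.c - S.d) * k + 1) ≤ (2 : ℝ) ^ (-(u + S.c / 2) * k - 1) := by
        apply Real.rpow_le_rpow_of_exponent_le (by norm_num)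
        have h6 : S.d * k ≤ S.c * k / 10 ^ 5 := by
          have := mul_le_mul_of_nonneg_right hdc (Nat.cast_nonneg k : (0:ℝ) ≤ k)
          linarith
        nlinarith
      have h7 : (2 : ℝ) ^ (-(u + S.c / 2) * (k : ℝ) - 1) = (2 : ℝ) ^ (-(u + S.c / 2) * (k : ℝ)) / 2 := by
        rw [Real.rpow_sub (by norm_num), Real.rpow_one]
      calc (T.card : ℝ) * a ^ S.hh ≤ E * a ^ (S.hh - 1) + a ^ S.hh := h1
        _ ≤ E * (2 : ℝ) ^ (-(u + S.c / 2) * (k : ℝ) - 1) + E * (2 : ℝ) ^ (-(u + S.c / 2) * (k : ℝ) - 1) := by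
            gcongr
            · exact hA1.trans h4
            · exact hA2.trans (h3.trans (by gcongr))
        _ = (2 : ℝ) ^ (-(u + S.c / 2) * (k : ℝ)) * E := by rw [h7]; ring
  · intro x h hh
    set T := (S.Cand k j).filter (fun y => A ⊆ y.2.primeFactors ∧ x ≤ y.1 * y.2 ∧ y.1 * y.2 < x + h)
      with hT
    have hTsub : T ⊆ S.Cand k j := Finset.filter_subset _ _
    have hTA : ∀ y ∈ T, A ⊆ y.2.primeFactors := fun y hy => (Finset.mem_filter.1 hy).2.1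
    rw [val T hTsub hTA]
    rcases T.eq_empty_or_nonempty with h0 | ⟨y, hy⟩
    · rw [h0]
      simp only [Finset.card_empty, Nat.cast_zero, zero_mul]
      positivity
    · obtain ⟨_, hapos, _, hA1, _, hA3⟩ := key y (hTsub hy) (hTA y hy)
      have hcard : (T.card : ℝ) ≤ (h : ℝ) / ((∏ p ∈ A, p : ℕ) : ℝ) + 1 := by
        refine card_cand_le S hkK hj (∏ p ∈ A, p) x h hapos T hTsub ?_
        intro z hz
        exact ⟨(key z (hTsub hz) (hTA z hz)).2.2.1, (Finset.mem_filter.1 hz).2.2⟩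
      have haR : (0 : ℝ) < ((∏ p ∈ A, p : ℕ) : ℝ) := by exact_mod_cast hapos
      set a : ℝ := ((∏ p ∈ A, p : ℕ) : ℝ) with ha
      have h1 : (T.card : ℝ) * a ^ S.hh ≤ h * a ^ (S.hh - 1) + a ^ S.hh := by
        have h2 : (T.card : ℝ) * a ^ S.hh ≤ (h / a + 1) * a ^ S.hh :=
          mul_le_mul_of_nonneg_right hcard (by positivity)
        refine h2.trans (le_of_eq ?_)
        rw [Real.rpow_sub haR, Real.rpow_one]
        ring
      have h4 : (2 : ℝ) ^ (-(u + S.c) * (k : ℝ)) ≤ (2 : ℝ) ^ (-(0.01 : ℝ) * k - 1) := by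
        apply Real.rpow_le_rpow_of_exponent_le (by norm_num)
        norm_num at hu
        nlinarith
      have h5 : (2 : ℝ) ^ ((k : ℝ) / 3 + 1 / 2) ≤ h * (2 : ℝ) ^ (-(0.01 : ℝ) * k - 1) := by
        calc (2 : ℝ) ^ ((k : ℝ) / 3 + 1 / 2)
            ≤ (2 : ℝ) ^ (0.38 * (k : ℝ)) * (2 : ℝ) ^ (-(0.01 : ℝ) * k - 1) := by
              rw [← Real.rpow_add (by norm_num)]
              apply Real.rpow_le_rpow_of_exponent_le (by norm_num)
              norm_num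
              linarith
          _ ≤ _ := mul_le_mul_of_nonneg_right hh (by positivity)
      have h7 : (2 : ℝ) ^ (-(0.01 : ℝ) * (k : ℝ) - 1) = (2 : ℝ) ^ (-(0.01 : ℝ) * (k : ℝ)) / 2 := by
        rw [Real.rpow_sub (by norm_num), Real.rpow_one]
      have hh0 : (0 : ℝ) ≤ h := Nat.cast_nonneg h
      calc (T.card : ℝ) * a ^ S.hh ≤ h * a ^ (S.hh - 1) + a ^ S.hh := h1
        _ ≤ h * (2 : ℝ) ^ (-(0.01 : ℝ) * (k : ℝ) - 1) + h * (2 : ℝ) ^ (-(0.01 : ℝ) * (k : ℝ) - 1) := by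
            gcongr
            · exact hA1.trans h4
            · exact hA3.trans h5
        _ = (2 : ℝ) ^ (-(0.01 : ℝ) * (k : ℝ)) * h := by rw [h7]; ring

end Pool.Agent.Helper88.KS
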