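import Pool.Agent.Helper88.KS.Cand1

/-!
# Project KS: `Mult1` (number of owners of a prime, conditional first moments)
-/

set_option autoImplicit false
open scoped Classical

namespace Pool.Agent.Helper88.KS

open Pool.Agent.Helper16.KS

/-- summation over the bad cells of a block: if every bad cell contributes at most
`2^(-(u + t) k)`, then the total is at most `3 * 2^(-t k)`. -/
theorem sum_badc_le (S : Sys) {k : ℕ} (hk : S.K ≤ k) (F : ℕ → ℝ) (t : ℝ)
    (hF : ∀ j ∈ S.badc k, F j ≤ (2 : ℝ) ^ (-(S.u (S.cls k j) + t) * k)) :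
    ∑ j ∈ S.badc k, F j ≤ 3 * (2 : ℝ) ^ (-t * (k : ℝ)) := by
  calc ∑ j ∈ S.badc k, F j ≤ ∑ j ∈ S.badc k, (2 : ℝ) ^ (-(S.u (S.cls k j) + t) * k) :=
        Finset.sum_le_sum hF
    _ = ∑ i : Fin 3, ∑ j ∈ (S.badc k).filter (fun j => S.cls k j = i),
          (2 : ℝ) ^ (-(S.u (S.cls k j) + t) * k) := (Finset.sum_fiberwise _ _ _).symm
    _ = ∑ i : Fin 3, (((S.badc k).filter (fun j => S.cls k j = i)).card : ℝ) *
          (2 : ℝ) ^ (-(S.u i + t) * k) := by
        refine Finset.sum_congr rfl fun i _ => ?_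
        rw [← nsmul_eq_mul, ← Finset.sum_const]
        refine Finset.sum_congr rfl fun j hj => ?_
        rw [(Finset.mem_filter.1 hj).2]
    _ ≤ ∑ _i : Fin 3, (2 : ℝ) ^ (-t * (k : ℝ)) := by
        refine Finset.sum_le_sum fun i _ => ?_
        have h1 := S.few k hk i
        have h2 : (S.badc k).filter (fun j => S.cls k j = i) =
            (Finset.range (nc S.d k)).filter (fun j => S.bad k j ∧ S.cls k j = i) := by
          unfold Sys.badc
          rw [Finset.filter_filter]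
        rw [h2]
        calc _ ≤ (2 : ℝ) ^ (S.u i * k) * (2 : ℝ) ^ (-(S.u i + t) * k) :=
              mul_le_mul_of_nonneg_right h1 (by positivity)
          _ = (2 : ℝ) ^ (-t * (k : ℝ)) := by
              rw [← Real.rpow_add (by norm_num)]
              congr 1
              ring
    _ = 3 * (2 : ℝ) ^ (-t * (k : ℝ)) := by
        rw [Finset.sum_const, Finset.card_univ, Fintype.card_fin, nsmul_eq_mul]
        norm_num

theorem mult1 : Mult1 := by
  intro S
  obtain ⟨hc, hc6, hdel, heta, htau0, htaus, hs0, hsc, hdc, hhh, hhh2, hhh0, hdel6⟩ := params S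
  refine ⟨S.K + ⌈1000 / S.c⌉₊, ?_⟩
  intro k hk q A
  have hkK : S.K ≤ k := le_trans (Nat.le_add_right _ _) hk
  have hkc : 1000 ≤ S.c * k := by
    have h1 : (⌈1000 / S.c⌉₊ : ℝ) ≤ k := by exact_mod_cast le_trans (Nat.le_add_left _ _) hk
    have h2 := (Nat.le_ceil (1000 / S.c)).trans h1
    rw [div_le_iff₀ hc] at h2
    linarith
  have hk1 : (1000 : ℝ) ≤ k := by
    have hk0 : (0 : ℝ) ≤ k := Nat.cast_nonneg k
    norm_num at hc6
    nlinarith
  have hsk : ((k : ℝ) + 1) * S.s ≤ S.c * k / 1000 := by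
    have h1 : ((k : ℝ) + 1) * S.s ≤ ((k : ℝ) + 1) * (S.c / 10 ^ 5) :=
      mul_le_mul_of_nonneg_left hsc (by linarith)
    nlinarith
  -- the contribution of one cell
  have main : ∀ j ∈ S.badc k,
      ∑ x ∈ (S.Cand k j).filter (fun x => x.1 = q ∧ A ⊂ x.2.primeFactors),
        S.pc A x.2.primeFactors ≤ (2 : ℝ) ^ (-(S.u (S.cls k j) + 3 * S.c / 4) * k) := by
    intro j hj
    have hjb := mem_badc.1 hj
    set u := S.u (S.cls k j) with hu_def
    set T := (S.Cand k j).filter (fun x => x.1 = q ∧ A ⊂ x.2.primeFactors) with hT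
    have hTsub : T ⊆ S.Cand k j := Finset.filter_subset _ _
    rcases T.eq_empty_or_nonempty with h0 | ⟨y₀, hy₀⟩
    · rw [h0, Finset.sum_empty]
      positivity
    -- facts about the members of `T`
    have hTq : ∀ y ∈ T, y.1 = q := fun y hy => (Finset.mem_filter.1 hy).2.1
    have hTA : ∀ y ∈ T, A ⊂ y.2.primeFactors := fun y hy => (Finset.mem_filter.1 hy).2.2
    have hq : q.Prime := by
      have := (S.cand k hkK j hjb.1 hjb.2 y₀ (hTsub hy₀)).1
      rwa [hTq y₀ hy₀] at this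
    have hsqf : ∀ y ∈ T, Squarefree y.2 := fun y hy =>
      (S.cand k hkK j hjb.1 hjb.2 y (hTsub hy)).2.2.1.squarefree_of_dvd (Dvd.intro_left _ rfl)
    set a := ∏ p ∈ A, p with ha
    have hapos : 0 < a := Finset.prod_pos fun p hp =>
      (Nat.prime_of_mem_primeFactors ((hTA y₀ hy₀).1 hp)).pos
    have hqa : 0 < q * a := Nat.mul_pos hq.pos hapos
    have hcard : (T.card : ℝ) ≤ (2 : ℝ) ^ ec S.d k / ((q * a : ℕ) : ℝ) + 1 := by
      have h1 : T.card ≤ ((Finset.Ico (2 ^ k + j * 2 ^ ec S.d k)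
          (2 ^ k + j * 2 ^ ec S.d k + 2 ^ ec S.d k)).filter (fun n => q * a ∣ n)).card := by
        apply Finset.card_le_card_of_injOn (fun y => y.1 * y.2)
        · intro y hy
          rw [Finset.mem_coe] at hy
          rw [Finset.mem_coe, Finset.mem_filter, ← cell_eq]
          refine ⟨(S.cand k hkK j hjb.1 hjb.2 y (hTsub hy)).2.2.2.2.1, ?_⟩
          show q * a ∣ y.1 * y.2
          rw [hTq y hy]
          exact Nat.mul_dvd_mul_left q ⟨_, (prod_mul_prod_sdiff (hsqf y hy) (hTA y hy).1).symm⟩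
        · intro y hy z hz hyz
          rw [Finset.mem_coe] at hy hz
          exact S.inj k hkK j hjb.1 hjb.2 y (hTsub hy) z (hTsub hz) hyz
      have h2 : (T.card : ℝ) ≤ (((Finset.Ico (2 ^ k + j * 2 ^ ec S.d k)
          (2 ^ k + j * 2 ^ ec S.d k + 2 ^ ec S.d k)).filter (fun n => q * a ∣ n)).card : ℝ) := by
        exact_mod_cast h1
      refine h2.trans ((card_mult_le _ _ _ hqa).trans ?_)
      push_cast
      exact le_rfl
    set N : ℝ := (2 : ℝ) ^ ec S.d k / ((q * a : ℕ) : ℝ) + 1 with hN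
    have hqaR : (0 : ℝ) < ((q * a : ℕ) : ℝ) := by exact_mod_cast hqa
    have hN0 : 0 < N := by rw [hN]; positivity
    -- each term is small
    have hterm : ∀ y ∈ T, S.pc A y.2.primeFactors ≤
        (2 : ℝ) ^ (-(u + 3 * S.c / 4) * k) / N := by
      intro y hy
      obtain ⟨hyp, hq3, hsq, h1y, hcell, hprim, hm⟩ := S.cand k hkK j hjb.1 hjb.2 y (hTsub hy)
      have hAy := (hTA y hy)
      have hab := prod_mul_prod_sdiff (hsqf y hy) hAy.1
      rw [← ha] at hab
      set b := ∏ p ∈ y.2.primeFactors \ A, p with hb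
      have hbpos : 0 < b := Finset.prod_pos fun p hp =>
        (Nat.prime_of_mem_primeFactors (Finset.mem_sdiff.1 hp).1).pos
      have hbR : (0 : ℝ) < (b : ℝ) := by exact_mod_cast hbpos
      have hb1 : (1 : ℝ) ≤ (b : ℝ) := by exact_mod_cast hbpos
      have hy2 : 0 < y.2 := lt_trans zero_lt_one h1y
      have hble : b ≤ y.2 := Nat.le_of_dvd hy2 ⟨a, by rw [mul_comm]; exact hab.symm⟩
      have hbleR : (b : ℝ) ≤ (y.2 : ℝ) := by exact_mod_cast hble
      have hy2R : (1 : ℝ) ≤ (y.2 : ℝ) := by exact_mod_cast hy2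
      have hcb := cell_bound S.d_pos.le hjb.1 hcell
      have hyq : y.1 = q := hTq y hy
      have hqR : (0 : ℝ) < q := by exact_mod_cast hq.pos
      have hn1 : (2 : ℝ) ^ (k : ℝ) ≤ (q : ℝ) * y.2 := by
        have h3 : ((2 ^ k : ℕ) : ℝ) ≤ ((y.1 * y.2 : ℕ) : ℝ) := by exact_mod_cast hcb.1
        rw [Nat.cast_mul, hyq] at h3
        push_cast at h3
        rwa [Real.rpow_natCast]
      have hn2 : (y.2 : ℝ) ≤ (2 : ℝ) ^ ((k : ℝ) + 1) := by
        have h3 : y.2 ≤ y.1 * y.2 := Nat.le_mul_of_pos_left _ hyp.pos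
        have h4 : y.2 < 2 ^ (k + 1) := lt_of_le_of_lt h3 hcb.2
        have h5 : (y.2 : ℝ) < ((2 ^ (k + 1) : ℕ) : ℝ) := by exact_mod_cast h4
        refine h5.le.trans (le_of_eq ?_)
        push_cast
        rw [← Real.rpow_natCast]
        push_cast
        rfl
      have hms : (y.2 : ℝ) ^ S.s ≤ (2 : ℝ) ^ (S.c * k / 1000) := by
        calc (y.2 : ℝ) ^ S.s ≤ ((2 : ℝ) ^ ((k : ℝ) + 1)) ^ S.s :=
              Real.rpow_le_rpow (by positivity) hn2 hs0.le
          _ = (2 : ℝ) ^ (((k : ℝ) + 1) * S.s) := by rw [← Real.rpow_mul (by norm_num)]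
          _ ≤ _ := Real.rpow_le_rpow_of_exponent_le (by norm_num) hsk
      -- (i)
      have hi : (b : ℝ) ^ (-S.hh) ≤ (2 : ℝ) ^ (-(u + S.c) * k + S.c * k / 1000) := by
        obtain ⟨p, hp, hpA⟩ := Finset.exists_of_ssubset hAy
        have hpp := Nat.prime_of_mem_primeFactors hp
        have hpd : p ∣ y.1 * y.2 := Dvd.dvd.mul_left (Nat.dvd_of_mem_primeFactors hp) _
        have h1 := hprim p hpp hpd
        have hpb : p ≤ b := Nat.le_of_dvd hbpos
          (Finset.dvd_prod_of_mem _ (Finset.mem_sdiff.2 ⟨hp, hpA⟩))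
        have hpbR : (p : ℝ) ≤ (b : ℝ) := by exact_mod_cast hpb
        have h2 : (2 : ℝ) ^ ((u + S.c) * k) ≤ (b : ℝ) ^ (1/2 - S.del) :=
          h1.trans (Real.rpow_le_rpow (Nat.cast_nonneg _) hpbR (by norm_num at hdel6; linarith))
        calc (b : ℝ) ^ (-S.hh) ≤ (b : ℝ) ^ (-(1/2 - S.del) + S.s) :=
              Real.rpow_le_rpow_of_exponent_le hb1 (by linarith)
          _ = ((b : ℝ) ^ (1/2 - S.del))⁻¹ * (b : ℝ) ^ S.s := by
              rw [Real.rpow_add hbR, Real.rpow_neg hbR.le]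
          _ ≤ ((2 : ℝ) ^ ((u + S.c) * k))⁻¹ * (2 : ℝ) ^ (S.c * k / 1000) := by
              apply mul_le_mul (inv_anti₀ (by positivity) h2) _ (by positivity) (by positivity)
              exact (Real.rpow_le_rpow hbR.le hbleR hs0.le).trans hms
          _ = _ := by
              rw [← Real.rpow_neg (by norm_num), ← Real.rpow_add (by norm_num)]
              congr 1
              ring
      -- (ii)
      have hii : (b : ℝ) ^ (-S.hh) * ((2 : ℝ) ^ ec S.d k / ((q * a : ℕ) : ℝ)) ≤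
          (2 : ℝ) ^ (-(u + S.c) * k + S.c * k / 1000) := by
        have h1 : (2 : ℝ) ^ ec S.d k / ((q * a : ℕ) : ℝ) ≤ (2 : ℝ) ^ (-((k : ℝ) / 2)) * b := by
          rw [div_le_iff₀ hqaR]
          have h2 : (2 : ℝ) ^ ec S.d k ≤ (2 : ℝ) ^ ((k : ℝ) / 2) := by
            refine (ec_real_le S.d ?_ k).trans ?_
            · have : S.c / 10 ^ 5 ≤ 1 := by
                rw [div_le_iff₀ (by norm_num)]
                norm_num at hc6
                linarith
              linarith [S.d_le, S.u_le 0, S.u_ge 0, hdel6, S.c_le, S.eta_le, S.del_le]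
            · apply Real.rpow_le_rpow_of_exponent_le (by norm_num)
              have := mul_nonneg S.d_pos.le (Nat.cast_nonneg k : (0:ℝ) ≤ k)
              nlinarith
          have h3 : (2 : ℝ) ^ ((k : ℝ) / 2) = (2 : ℝ) ^ (-((k : ℝ) / 2)) * (2 : ℝ) ^ (k : ℝ) := by
            rw [← Real.rpow_add (by norm_num)]
            congr 1
            ring
          have h4 : (q : ℝ) * y.2 = (b : ℝ) * ((q * a : ℕ) : ℝ) := by
            rw [← hab]
            push_cast
            ring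
          calc (2 : ℝ) ^ ec S.d k ≤ (2 : ℝ) ^ (-((k : ℝ) / 2)) * (2 : ℝ) ^ (k : ℝ) := h3 ▸ h2
            _ ≤ (2 : ℝ) ^ (-((k : ℝ) / 2)) * ((q : ℝ) * y.2) :=
                mul_le_mul_of_nonneg_left hn1 (by positivity)
            _ = (2 : ℝ) ^ (-((k : ℝ) / 2)) * b * ((q * a : ℕ) : ℝ) := by rw [h4]; ring
        calc (b : ℝ) ^ (-S.hh) * ((2 : ℝ) ^ ec S.d k / ((q * a : ℕ) : ℝ))
            ≤ (b : ℝ) ^ (-S.hh) * ((2 : ℝ) ^ (-((k : ℝ) / 2)) * b) :=
              mul_le_mul_of_nonneg_left h1 (by positivity)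
          _ = (2 : ℝ) ^ (-((k : ℝ) / 2)) * (b : ℝ) ^ (1 - S.hh) := by
              rw [show (1 : ℝ) - S.hh = -S.hh + 1 by ring, Real.rpow_add hbR, Real.rpow_one]
              ring
          _ ≤ (2 : ℝ) ^ (-((k : ℝ) / 2)) * ((2 : ℝ) ^ ((1/2 - u - S.c) * k) *
                (2 : ℝ) ^ (S.c * k / 1000)) := by
              apply mul_le_mul_of_nonneg_left _ (by positivity)
              calc (b : ℝ) ^ (1 - S.hh) ≤ (y.2 : ℝ) ^ (1 - S.hh) :=
                    Real.rpow_le_rpow hbR.le hbleR (by linarith)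
                _ ≤ (y.2 : ℝ) ^ (1/2 + S.del + S.s) :=
                    Real.rpow_le_rpow_of_exponent_le hy2R (by linarith)
                _ = (y.2 : ℝ) ^ (1/2 + S.del) * (y.2 : ℝ) ^ S.s := by
                    rw [← Real.rpow_add (by linarith)]
                _ ≤ _ := mul_le_mul hm hms (by positivity) (by positivity)
          _ = _ := by
              rw [← Real.rpow_add (by norm_num), ← Real.rpow_add (by norm_num)]
              congr 1
              ring
      rw [pc_eq, ← hb, le_div_iff₀ hN0, hN, mul_add, mul_one]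
      have h9 : (2 : ℝ) ^ (-(u + S.c) * k + S.c * k / 1000) ≤
          (2 : ℝ) ^ (-(u + 3 * S.c / 4) * k - 1) := by
        apply Real.rpow_le_rpow_of_exponent_le (by norm_num)
        nlinarith
      have h10 : (2 : ℝ) ^ (-(u + 3 * S.c / 4) * (k : ℝ) - 1) =
          (2 : ℝ) ^ (-(u + 3 * S.c / 4) * (k : ℝ)) / 2 := by
        rw [Real.rpow_sub (by norm_num), Real.rpow_one]
      linarith [hi, hii]
    calc ∑ x ∈ T, S.pc A x.2.primeFactors
        ≤ ∑ _x ∈ T, (2 : ℝ) ^ (-(u + 3 * S.c / 4) * k) / N := Finset.sum_le_sum hterm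
      _ = T.card * ((2 : ℝ) ^ (-(u + 3 * S.c / 4) * k) / N) := by
          rw [Finset.sum_const, nsmul_eq_mul]
      _ ≤ N * ((2 : ℝ) ^ (-(u + 3 * S.c / 4) * k) / N) :=
          mul_le_mul_of_nonneg_right hcard (by positivity)
      _ = _ := mul_div_cancel₀ _ hN0.ne'
  have h1 := sum_badc_le S hkK _ (3 * S.c / 4) main
  refine h1.trans ?_
  calc 3 * (2 : ℝ) ^ (-(3 * S.c / 4) * (k : ℝ)) ≤ (2 : ℝ) ^ (2 : ℝ) * (2 : ℝ) ^ (-(3 * S.c / 4) * (k : ℝ)) := by
        apply mul_le_mul_of_nonneg_right _ (by positivity)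
        norm_num
    _ = (2 : ℝ) ^ (2 + -(3 * S.c / 4) * (k : ℝ)) := by rw [← Real.rpow_add (by norm_num)]
    _ ≤ (2 : ℝ) ^ (-(S.c / 2) * (k : ℝ)) := by
        apply Real.rpow_le_rpow_of_exponent_le (by norm_num)
        nlinarith

end Pool.Agent.Helper88.KS
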