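import Pool.Agent.Helper16.KS.St

/-!
# Project KS: small facts about cells and candidates used for `Mult1` and `Cand1`
-/

set_option autoImplicit false
open scoped Classical

namespace Pool.Agent.Helper88.KS

open Pool.Agent.Helper16.KS

/-- multiples of `D` in an interval of length `H` -/
theorem card_mult_le (L H D : ℕ) (hD : 0 < D) :
    (((Finset.Ico L (L + H)).filter (fun n => D ∣ n)).card : ℝ) ≤ (H : ℝ) / D + 1 := by
  rcases Nat.eq_zero_or_pos H with h0 | hpos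
  · subst h0
    simp
  have h1 : ((Finset.Ico L (L + H)).filter (fun n => D ∣ n)).card ≤
      (Finset.range ((H - 1) / D + 1)).card := by
    apply Finset.card_le_card_of_injOn (fun n => (n - L) / D)
    · intro n hn
      rw [Finset.mem_coe, Finset.mem_filter, Finset.mem_Ico] at hn
      rw [Finset.mem_coe, Finset.mem_range]
      have : n - L ≤ H - 1 := by omega
      exact Nat.lt_succ_of_le (Nat.div_le_div_right this)
    · intro a ha b hb hab
      rw [Finset.mem_coe, Finset.mem_filter, Finset.mem_Ico] at ha hb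
      have hab' : (a - L) / D = (b - L) / D := hab
      obtain ⟨⟨ha1, ha2⟩, ⟨a', ha3⟩⟩ := ha
      obtain ⟨⟨hb1, hb2⟩, ⟨b', hb3⟩⟩ := hb
      have e1 := Nat.div_add_mod (a - L) D
      have e2 := Nat.div_add_mod (b - L) D
      have m1 := Nat.mod_lt (a - L) hD
      have m2 := Nat.mod_lt (b - L) hD
      rw [hab'] at e1
      have hlt1 : a < b + D := by omega
      have hlt2 : b < a + D := by omega
      rw [ha3, hb3] at hlt1 hlt2
      have h3 : D * a' < D * (b' + 1) := by rw [Nat.mul_add, Nat.mul_one]; exact hlt1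
      have h4 : D * b' < D * (a' + 1) := by rw [Nat.mul_add, Nat.mul_one]; exact hlt2
      have h5 := Nat.lt_of_mul_lt_mul_left h3
      have h6 := Nat.lt_of_mul_lt_mul_left h4
      have : a' = b' := by omega
      rw [ha3, hb3, this]
  rw [Finset.card_range] at h1
  have h2 : (((Finset.Ico L (L + H)).filter (fun n => D ∣ n)).card : ℝ) ≤
      (((H - 1) / D + 1 : ℕ) : ℝ) := by exact_mod_cast h1
  refine h2.trans ?_
  push_cast
  have h3 : (((H - 1) / D : ℕ) : ℝ) ≤ ((H - 1 : ℕ) : ℝ) / D := Nat.cast_div_le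
  have h4 : ((H - 1 : ℕ) : ℝ) ≤ H := by exact_mod_cast Nat.sub_le H 1
  have hD' : (0 : ℝ) < D := by exact_mod_cast hD
  have h5 : ((H - 1 : ℕ) : ℝ) / D ≤ (H : ℝ) / D := by gcongr
  linarith

theorem ec_le (d : ℝ) (hd : 0 ≤ d) (k : ℕ) : ec d k ≤ k := by
  unfold ec
  have h : (k : ℝ) * (1 / 2 - d) ≤ k := by
    have hk : (0 : ℝ) ≤ k := Nat.cast_nonneg k
    nlinarith
  calc ⌊(k : ℝ) * (1 / 2 - d)⌋₊ ≤ ⌊(k : ℝ)⌋₊ := Nat.floor_le_floor h
    _ = k := Nat.floor_natCast k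

theorem cell_bound {d : ℝ} (hd : 0 ≤ d) {k j n : ℕ} (hj : j < nc d k) (hn : n ∈ cell d k j) :
    2 ^ k ≤ n ∧ n < 2 ^ (k + 1) := by
  unfold cell at hn
  rw [Finset.mem_Ico] at hn
  refine ⟨le_trans (Nat.le_add_right _ _) hn.1, lt_of_lt_of_le hn.2 ?_⟩
  have h1 : (j + 1) * 2 ^ ec d k ≤ 2 ^ k := by
    unfold nc at hj
    calc (j + 1) * 2 ^ ec d k ≤ 2 ^ (k - ec d k) * 2 ^ ec d k := Nat.mul_le_mul_right _ hj
      _ = 2 ^ k := by rw [← pow_add, Nat.sub_add_cancel (ec_le d hd k)]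
  rw [pow_succ]
  omega

theorem cell_eq (d : ℝ) (k j : ℕ) :
    cell d k j = Finset.Ico (2 ^ k + j * 2 ^ ec d k) (2 ^ k + j * 2 ^ ec d k + 2 ^ ec d k) := by
  unfold cell
  congr 1
  ring

/-- length of a cell -/
theorem ec_real_le (d : ℝ) (hd : d ≤ 1/2) (k : ℕ) :
    ((2 : ℝ) ^ ec d k) ≤ (2 : ℝ) ^ ((1/2 - d) * (k : ℝ)) := by
  rw [← Real.rpow_natCast]
  apply Real.rpow_le_rpow_of_exponent_le (by norm_num)
  unfold ec
  have : 0 ≤ (k : ℝ) * (1 / 2 - d) := mul_nonneg (Nat.cast_nonneg k) (by linarith)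
  calc ((⌊(k : ℝ) * (1 / 2 - d)⌋₊ : ℕ) : ℝ) ≤ (k : ℝ) * (1 / 2 - d) := Nat.floor_le this
    _ = (1/2 - d) * k := by ring

theorem ec_real_ge (d : ℝ) (k : ℕ) :
    (2 : ℝ) ^ ((1/2 - d) * (k : ℝ) - 1) ≤ (2 : ℝ) ^ ec d k := by
  rw [← Real.rpow_natCast]
  apply Real.rpow_le_rpow_of_exponent_le (by norm_num)
  unfold ec
  have := Nat.lt_floor_add_one ((k : ℝ) * (1 / 2 - d))
  linarith

/-- bad cells -/
theorem mem_badc {S : Sys} {k j : ℕ} : j ∈ S.badc k ↔ j < nc S.d k ∧ S.bad k j := by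
  unfold Sys.badc
  rw [Finset.mem_filter, Finset.mem_range]

/-! ### products over sets of primes -/

theorem prod_pr (S : Sys) (A : Finset ℕ) :
    ∏ p ∈ A, S.pr p = ((∏ p ∈ A, p : ℕ) : ℝ) ^ (-S.hh) := by
  unfold Sys.pr
  rw [Real.finsetProd_rpow _ _ (fun i _ => Nat.cast_nonneg i), Nat.cast_prod]

theorem pc_eq (S : Sys) (A D : Finset ℕ) :
    S.pc A D = ((∏ p ∈ D \ A, p : ℕ) : ℝ) ^ (-S.hh) := prod_pr S _

theorem prod_mul_prod_sdiff {m : ℕ} (hm : Squarefree m) {A : Finset ℕ}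
    (hA : A ⊆ m.primeFactors) :
    (∏ p ∈ A, p) * (∏ p ∈ m.primeFactors \ A, p) = m := by
  rw [mul_comm, Finset.prod_sdiff hA, Nat.prod_primeFactors_of_squarefree hm]

end Pool.Agent.Helper88.KS
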