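import Pool.Agent.Helper18.KL.Defs
import Pool.Agent.Helper16.KS.Basic
import Pool.Agent.Helper88.KS.Basic
import Pool.Agent.Helper72.KS.Init

/-!
# Project KS: `Load1` from `Red`, `KF`, `JF`; `Load2` from `Red`, `JF`, `LL`
-/

set_option autoImplicit false
open scoped Classical
open Finset

namespace Pool.Agent.Helper88.KS

open Pool.Agent.Helper16.KS Pool.Agent.Helper18.KL

theorem tw_nonneg (S : Sys) (A : Finset ℕ) (m l : ℕ) : 0 ≤ tw S A m l := by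
  unfold tw
  positivity

/-- `LS` is subadditive in the condition -/
theorem LS_le_add (S : Sys) (k0 k j : ℕ) (Q Q1 Q2 : ℕ × ℕ → ℕ → ℕ × ℕ → Prop) (A : Finset ℕ)
    (h : ∀ n ∈ cell S.d k j, ∀ k' ∈ S.hvy k0 k, ∀ j' ∈ S.badc k', ∀ x ∈ S.Cand k' j', x.1 ∣ n →
      Q (k', j') n x → Q1 (k', j') n x ∨ Q2 (k', j') n x) :
    LS S k0 k j Q A ≤ LS S k0 k j Q1 A + LS S k0 k j Q2 A := by
  unfold LS
  rw [← Finset.sum_add_distrib]
  apply Finset.sum_le_sum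
  intro n hn
  rw [← Finset.sum_add_distrib]
  apply Finset.sum_le_sum
  intro k' hk'
  rw [← Finset.sum_add_distrib]
  apply Finset.sum_le_sum
  intro j' hj'
  rw [Finset.sum_filter, Finset.sum_filter, Finset.sum_filter, ← Finset.sum_add_distrib]
  apply Finset.sum_le_sum
  intro x hx
  have ht := tw_nonneg S A x.2 (n / x.1)
  by_cases h1 : x.1 ∣ n ∧ Q (k', j') n x ∧ A ⊆ x.2.primeFactors ∪ (n / x.1).primeFactors
  · rw [if_pos h1]
    rcases h n (Finset.mem_filter.mp hn).1 k' hk' j' hj' x hx h1.1 h1.2.1 with h2 | h2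
    · rw [if_pos ⟨h1.1, h2, h1.2.2⟩]
      split_ifs <;> linarith
    · rw [if_pos (c := x.1 ∣ n ∧ Q2 (k', j') n x ∧ _) ⟨h1.1, h2, h1.2.2⟩]
      split_ifs <;> linarith
  · rw [if_neg h1]
    split_ifs <;> linarith

/-- the two kinds of non-direct terms -/
theorem Q1_split {A : Finset ℕ} {i : ℕ × ℕ} {n : ℕ} {x : ℕ × ℕ} (hx : Squarefree x.2)
    (h : Sys.Q1 i n x) : QK A i n x ∨ QJ A i n x := by
  by_cases hK : QK A i n x
  · exact Or.inl hK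
  · right
    unfold QK at hK
    push Not at hK
    unfold Sys.Q1 at h
    have h1 : ∃ p : ℕ, p.Prime ∧ p ∣ x.2 ∧ ¬ p ∣ n / x.1 := by
      by_contra hc
      push Not at hc
      apply h
      rw [← Nat.prod_primeFactors_of_squarefree hx]
      apply Finset.prod_primes_dvd
      · intro p hp
        exact (Nat.prime_of_mem_primeFactors hp).prime
      · intro p hp
        exact hc p (Nat.prime_of_mem_primeFactors hp) (Nat.dvd_of_mem_primeFactors hp)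
    obtain ⟨p, hp, hpx, hpn⟩ := h1
    refine ⟨⟨p, hp, hpx, ?_⟩, hK⟩
    by_contra hA
    exact hpn (hK p hp hpx hA)

/-- common part of `load1_of` and `load2_of` -/
theorem load_of (h1 : Red) (Qa : Sys → ℕ × ℕ → ℕ → ℕ × ℕ → Prop)
    (Q2 Q3 : Sys → Finset ℕ → ℕ × ℕ → ℕ → ℕ × ℕ → Prop) (h2 : SmallLS Q2) (h3 : SmallLS Q3)
    (hsplit : ∀ (S : Sys) (A : Finset ℕ) (i : ℕ × ℕ) (n : ℕ) (x : ℕ × ℕ), Squarefree x.2 →
      Qa S i n x → Q2 S A i n x ∨ Q3 S A i n x) (S : Sys) :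
    ∃ K0 : ℕ, ∀ k0 : ℕ, K0 ≤ k0 → ∀ k, k0 ≤ k → ∀ j < nc S.d k,
      ∀ A : Finset ℕ, S.LP k0 k j (Qa S) A ≤ (2 : ℝ) ^ (-(S.ep / 50) * k) * S.G k := by
  obtain ⟨K1, h1'⟩ := h1 S
  obtain ⟨K2, h2'⟩ := h2 S
  obtain ⟨K3, h3'⟩ := h3 S
  have hep : 0 < S.ep := by
    have hc := S.d_pos
    have h4 := S.d_le
    have h5 := S.c_le
    have hc0 : 0 < S.c := by linarith
    have he0 : 0 < S.eta := by linarith
    unfold Sys.ep
    positivity
  obtain ⟨K4, h4⟩ := Pool.Agent.Helper72.KS.exists_growth (3 * S.ep / 1000) (by positivity) 2 4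
  refine ⟨max (max K1 K2) (max (max K3 K4) (max S.K 1)), ?_⟩
  intro k0 hk0 k hk j hj A
  simp only [max_le_iff] at hk0
  obtain ⟨⟨a1, a2⟩, ⟨a3, a4⟩, a5, a6⟩ := hk0
  have hkpos : (0 : ℝ) < k := by
    have : 1 ≤ k := a6.trans hk
    exact_mod_cast this
  have e1 := h1' k0 a1 k hk j hj (Qa S) A
  have e2 := h2' k0 a2 k hk j hj A
  have e3 := h3' k0 a3 k hk j hj A
  have e4 := h4 k (a4.trans hk)
  have e5 : LS S k0 k j (Qa S) A ≤ LS S k0 k j (Q2 S A) A + LS S k0 k j (Q3 S A) A := by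
    apply LS_le_add
    intro n hn k' hk' j' hj' x hx hxn hQ
    apply hsplit S A _ _ _ _ hQ
    have hk'0 : k0 ≤ k' := by
      unfold Sys.hvy at hk'
      rw [Finset.mem_Ico] at hk'
      exact (le_max_left _ _).trans hk'.1
    have hb := mem_badc.mp hj'
    have := (S.cand k' (a5.trans hk'0) j' hb.1 hb.2 x hx).2.2.1
    exact this.squarefree_of_dvd (Dvd.intro_left _ rfl)
  have hLS : LS S k0 k j (Qa S) A ≤ 2 * ((2 : ℝ) ^ (-(S.ep / 40) * k) * 2 ^ ec S.d k) := by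
    linarith
  have hG : S.G k = 2 ^ ec S.d k * (2 : ℝ) ^ ((S.s - 1) * k) / k ^ 4 := rfl
  have hk4 : (0 : ℝ) < (k : ℝ) ^ 4 := by positivity
  calc S.LP k0 k j (Qa S) A
      ≤ (2 : ℝ) ^ (20 * S.tau * k) * (2 : ℝ) ^ ((S.s - 1) * k) * LS S k0 k j (Qa S) A := e1
    _ ≤ (2 : ℝ) ^ (20 * S.tau * k) * (2 : ℝ) ^ ((S.s - 1) * k) *
        (2 * ((2 : ℝ) ^ (-(S.ep / 40) * k) * 2 ^ ec S.d k)) := by gcongr
    _ = (2 * (k : ℝ) ^ 4) * ((2 : ℝ) ^ (20 * S.tau * k) * (2 : ℝ) ^ (-(S.ep / 40) * k)) *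
        (2 ^ ec S.d k * (2 : ℝ) ^ ((S.s - 1) * k) / k ^ 4) := by
        field_simp
    _ ≤ (2 : ℝ) ^ (3 * S.ep / 1000 * (k : ℝ)) *
        ((2 : ℝ) ^ (20 * S.tau * k) * (2 : ℝ) ^ (-(S.ep / 40) * k)) *
        (2 ^ ec S.d k * (2 : ℝ) ^ ((S.s - 1) * k) / k ^ 4) := by gcongr
    _ = (2 : ℝ) ^ (-(S.ep / 50) * k) * S.G k := by
        rw [hG, ← Real.rpow_add (by norm_num), ← Real.rpow_add (by norm_num)]
        congr 2
        unfold Sys.tau
        ring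

/-- (LOAD1) -/
theorem load1_of (h1 : Red) (h2 : KF) (h3 : JF) : Load1 := fun S =>
  load_of h1 (fun _ => Sys.Q1) _ _ h2 h3 (fun _ _ _ _ _ hx h => Q1_split hx h) S

/-- the two kinds of direct terms with large cofactor -/
theorem Q2_split {S : Sys} {A : Finset ℕ} {i : ℕ × ℕ} {n : ℕ} {x : ℕ × ℕ}
    (h : S.Q2 i n x) : QJ A i n x ∨ QL S A i n x := by
  by_cases hA : ∃ p : ℕ, p.Prime ∧ p ∣ x.2 ∧ p ∈ A
  · left
    exact ⟨hA, fun p _ hpx _ => hpx.trans h.1⟩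
  · right
    push Not at hA
    exact ⟨h, hA⟩

/-- (LOAD2) -/
theorem load2_of (h1 : Red) (h2 : JF) (h3 : LL) : Load2 := fun S =>
  load_of h1 (fun S => S.Q2) _ _ h2 h3 (fun _ _ _ _ _ _ h => Q2_split h) S

end Pool.Agent.Helper88.KS
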